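import Pool.Agent.H242.GX.Stm6

/-!
# GU-KAPPA (project of helper242): the coefficient of the involutions is smooth

helper99.
-/

set_option autoImplicit false

open Set Filter Topology
open scoped ContDiff

namespace Pool.Agent.H99.GU

open Pool.Agent.H242.GX

/-- equal limits at `0` -/
lemma lim_eq {F G : ℝ → ℝ} {r : ℝ} (hr : 0 < r) (hF : ContinuousAt F 0) (hG : ContinuousAt G 0)
    (h : ∀ t : ℝ, t ≠ 0 → |t| < r → F t = G t) : F 0 = G 0 := by
  have hF' : Tendsto F (𝓝[≠] 0) (𝓝 (F 0)) := hF.tendsto.mono_left nhdsWithin_le_nhds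
  have hG' : Tendsto G (𝓝[≠] 0) (𝓝 (G 0)) := hG.tendsto.mono_left nhdsWithin_le_nhds
  refine tendsto_nhds_unique (hF'.congr' ?_) hG'
  have h1 : ∀ᶠ t : ℝ in 𝓝[≠] 0, |t| < r := by
    apply mem_nhdsWithin_of_mem_nhds
    have : Metric.ball (0 : ℝ) r ∈ 𝓝 (0 : ℝ) := Metric.ball_mem_nhds 0 hr
    filter_upwards [this] with t ht
    rwa [Metric.mem_ball, dist_zero_right, Real.norm_eq_abs] at ht
  filter_upwards [h1, self_mem_nhdsWithin] with t h2 h3
  exact h t h3 h2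

/-- the derivative at `0` of `t * g t` -/
lemma der0 {f g : ℝ → ℝ} (hg : ContinuousAt g 0) (h : ∀ t, f t = t * g t) : deriv f 0 = g 0 := by
  have h1 : HasDerivAt f (g 0) 0 := by
    rw [hasDerivAt_iff_tendsto_slope_zero]
    have h2 : Tendsto g (𝓝[≠] 0) (𝓝 (g 0)) := hg.tendsto.mono_left nhdsWithin_le_nhds
    refine h2.congr' ?_
    filter_upwards [self_mem_nhdsWithin] with t ht
    have ht' : t ≠ 0 := ht
    rw [zero_add, h t, h 0, zero_mul, sub_zero, smul_eq_mul]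
    field_simp
  exact h1.deriv

theorem gu_KAPPA (hHAD : S_HAD) : S_KAPPA := by
  intro X Z hW H hH hyp
  have hsl : ∀ (f : ℝ × ℝ → ℝ) (θ : ℝ), Continuous f → Continuous (fun t : ℝ => f (θ, t)) := by
    intro f θ hf
    exact hf.comp (by fun_prop)
  -- the factorisation of the second component
  obtain ⟨r₁, hr₁, hr₁e⟩ := hHAD (fun x => (X x).2) (contDiff_snd.comp hW.smX)
    (fun θ => by
      show (X (θ, 0)).2 = 0
      rw [hW.axis])
  have hr₁0 : ∀ θ, 0 < r₁ (θ, 0) := by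
    intro θ
    have h1 := der0 (f := fun t => (X (θ, t)).2) (g := fun t => r₁ (θ, t))
      (hsl r₁ θ hr₁.continuous).continuousAt (fun t => hr₁e θ t)
    have h2 := hW.der2 θ
    rw [h1] at h2
    exact h2
  -- the factorisation of `H`
  obtain ⟨K, hK, hKe⟩ := hHAD H hH.smooth hH.zero
  have hK0 : ∀ θ, 0 < K (θ, 0) := by
    intro θ
    have h1 := der0 (f := fun t => H (θ, t)) (g := fun t => K (θ, t))
      (hsl K θ hK.continuous).continuousAt (fun t => hKe θ t)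
    have h2 := hH.pos θ
    rw [h1] at h2
    exact h2
  obtain ⟨Q, hQdef⟩ : ∃ Q : ℝ × ℝ → ℝ, Q = fun x => r₁ x ^ 2 * K ((X x).1, (X x).2 ^ 2) := ⟨_, rfl⟩
  have hQs : ContDiff ℝ ∞ Q := by
    rw [hQdef]
    refine (hr₁.pow 2).mul (hK.comp ?_)
    exact (contDiff_fst.comp hW.smX).prodMk ((contDiff_snd.comp hW.smX).pow 2)
  have hQe : ∀ θ t : ℝ, H ((X (θ, t)).1, (X (θ, t)).2 ^ 2) = t ^ 2 * Q (θ, t) := by
    intro θ t
    rw [hKe, hQdef]
    show (X (θ, t)).2 ^ 2 * K ((X (θ, t)).1, (X (θ, t)).2 ^ 2) =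
      t ^ 2 * (r₁ (θ, t) ^ 2 * K ((X (θ, t)).1, (X (θ, t)).2 ^ 2))
    have h1 : (X (θ, t)).2 = t * r₁ (θ, t) := hr₁e θ t
    rw [h1]
    ring
  have hQ0 : ∀ θ, 0 < Q (θ, 0) := by
    intro θ
    rw [hQdef]
    show 0 < r₁ (θ, 0) ^ 2 * K ((X (θ, 0)).1, (X (θ, 0)).2 ^ 2)
    rw [hW.axis]
    have h1 := hr₁0 θ
    have h2 := hK0 θ
    have h3 : ((0 : ℝ)) ^ 2 = 0 := by norm_num
    show 0 < r₁ (θ, 0) ^ 2 * K (θ, (0 : ℝ) ^ 2)
    rw [h3]
    positivity
  have hQc := hQs.continuous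
  have hQp : ∀ θ t : ℝ, Q (θ + 2 * Real.pi, t) = Q (θ, t) := by
    intro θ
    have h1 : (fun t : ℝ => Q (θ + 2 * Real.pi, t)) = fun t => Q (θ, t) := by
      refine Continuous.ext_on (dense_compl_singleton (0 : ℝ)) (hsl Q _ hQc) (hsl Q _ hQc) ?_
      intro t ht
      have ht' : t ≠ 0 := ht
      have h2 := hQe (θ + 2 * Real.pi) t
      rw [hW.per, hH.per, hQe] at h2
      exact (mul_left_cancel₀ (pow_ne_zero 2 ht') h2).symm
    intro t
    exact congrFun h1 t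
  -- first order
  obtain ⟨Q₁, hQ₁, hQ₁e⟩ := hHAD (fun x => Q x - Q (x.1, 0))
    (hQs.sub (hQs.comp (contDiff_fst.prodMk contDiff_const)))
    (fun θ => by
      show Q (θ, 0) - Q (θ, 0) = 0
      ring)
  have hQ₁e' : ∀ θ t : ℝ, Q (θ, t) = Q (θ, 0) + t * Q₁ (θ, t) := by
    intro θ t
    have h1 : Q (θ, t) - Q (θ, 0) = t * Q₁ (θ, t) := hQ₁e θ t
    linarith
  have hQ₁c := hQ₁.continuous
  have hQ₁p : ∀ θ : ℝ, Q₁ (θ + 2 * Real.pi, 0) = Q₁ (θ, 0) := by
    intro θ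
    refine lim_eq (F := fun t => Q₁ (θ + 2 * Real.pi, t)) (G := fun t => Q₁ (θ, t)) one_pos
      (hsl Q₁ _ hQ₁c).continuousAt (hsl Q₁ _ hQ₁c).continuousAt ?_
    intro t ht _
    have h1 := hQ₁e' (θ + 2 * Real.pi) t
    rw [hQp, hQp, hQ₁e' θ t] at h1
    have h2 : t * Q₁ (θ, t) = t * Q₁ (θ + 2 * Real.pi, t) := by linarith
    exact (mul_left_cancel₀ ht h2).symm
  refine ⟨fun θ => -Q₁ (θ, 0) / Q (θ, 0), ⟨?_, ?_⟩, ?_⟩
  · exact ((hQ₁.comp (contDiff_id.prodMk contDiff_const)).neg).div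
      (hQs.comp (contDiff_id.prodMk contDiff_const)) (fun θ => (hQ0 θ).ne')
  · intro θ
    show -Q₁ (θ + 2 * Real.pi, 0) / Q (θ + 2 * Real.pi, 0) = -Q₁ (θ, 0) / Q (θ, 0)
    rw [hQp, hQ₁p]
  · intro θ
    obtain ⟨m, k, r, hm, hr, h⟩ := hyp θ
    have hden : ContinuousAt (fun t : ℝ => 1 + k * t) 0 := by fun_prop
    have hden0 : (fun t : ℝ => 1 + k * t) 0 ≠ 0 := by simp
    have hσ : ContinuousAt (fun t : ℝ => -(m * t) / (1 + k * t)) 0 :=
      ContinuousAt.div (by fun_prop) hden hden0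
    have hσ0 : -(m * 0) / (1 + k * 0) = (0 : ℝ) := by simp
    -- the relation
    have hrel : ∀ t : ℝ, t ≠ 0 → |t| < r →
        m ^ 2 * Q (θ, -(m * t) / (1 + k * t)) = (1 + k * t) ^ 2 * Q (θ, t) := by
      intro t ht htr
      obtain ⟨h1, h2⟩ := h t htr
      rw [hQe, hQe] at h2
      have h3 : t ^ 2 * (m ^ 2 * Q (θ, -(m * t) / (1 + k * t))) =
          t ^ 2 * ((1 + k * t) ^ 2 * Q (θ, t)) := by
        have h4 : (-(m * t) / (1 + k * t)) ^ 2 * (1 + k * t) ^ 2 = m ^ 2 * t ^ 2 := by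
          rw [div_pow, div_mul_cancel₀ _ (pow_ne_zero 2 h1.ne')]
          ring
        calc t ^ 2 * (m ^ 2 * Q (θ, -(m * t) / (1 + k * t)))
            = (m ^ 2 * t ^ 2) * Q (θ, -(m * t) / (1 + k * t)) := by ring
          _ = (1 + k * t) ^ 2 * ((-(m * t) / (1 + k * t)) ^ 2 *
                Q (θ, -(m * t) / (1 + k * t))) := by
              rw [← h4]
              ring
          _ = t ^ 2 * ((1 + k * t) ^ 2 * Q (θ, t)) := by
              rw [h2]
              ring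
      exact mul_left_cancel₀ (pow_ne_zero 2 ht) h3
    have hcomp : ∀ (f : ℝ × ℝ → ℝ), Continuous f →
        ContinuousAt (fun t : ℝ => f (θ, -(m * t) / (1 + k * t))) 0 := by
      intro f hf
      have h1 : ContinuousAt (fun t : ℝ => f (θ, t)) ((fun t : ℝ => -(m * t) / (1 + k * t)) 0) :=
        (hsl f θ hf).continuousAt
      exact ContinuousAt.comp (f := fun t : ℝ => -(m * t) / (1 + k * t))
        (g := fun t : ℝ => f (θ, t)) h1 hσ
    have hm1 : m = 1 := by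
      have h1 := lim_eq (F := fun t => m ^ 2 * Q (θ, -(m * t) / (1 + k * t)))
        (G := fun t => (1 + k * t) ^ 2 * Q (θ, t)) hr (continuousAt_const.mul (hcomp Q hQc))
        ((hden.pow 2).mul (hsl Q θ hQc).continuousAt) hrel
      simp only [hσ0, mul_zero, add_zero, one_pow, one_mul] at h1
      have h2 : m ^ 2 = 1 := by
        have h3 : m ^ 2 * Q (θ, 0) = 1 * Q (θ, 0) := by
          rw [one_mul]
          simpa using h1
        exact mul_right_cancel₀ (hQ0 θ).ne' h3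
      nlinarith
    have hk : k = -Q₁ (θ, 0) / Q (θ, 0) := by
      have h1 := lim_eq (F := fun t => -(Q₁ (θ, -(m * t) / (1 + k * t))) / (1 + k * t))
        (G := fun t => 2 * k * Q (θ, 0) + k ^ 2 * t * Q (θ, 0) + (1 + k * t) ^ 2 * Q₁ (θ, t)) hr
        (ContinuousAt.div (hcomp Q₁ hQ₁c).neg hden hden0)
        ((ContinuousAt.add (by fun_prop) (by fun_prop)).add
          ((hden.pow 2).mul (hsl Q₁ θ hQ₁c).continuousAt))
        (fun t ht htr => by
          have h2 := hrel t ht htr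
          have h3 := (h t htr).1
          rw [hQ₁e' θ (-(m * t) / (1 + k * t)), hQ₁e' θ t, hm1] at h2
          rw [hm1]
          have h4 : t * (-(Q₁ (θ, -(1 * t) / (1 + k * t))) / (1 + k * t)) =
              t * (2 * k * Q (θ, 0) + k ^ 2 * t * Q (θ, 0) + (1 + k * t) ^ 2 * Q₁ (θ, t)) := by
            have h5 : t * (-(Q₁ (θ, -(1 * t) / (1 + k * t))) / (1 + k * t)) =
                -(1 * t) / (1 + k * t) * Q₁ (θ, -(1 * t) / (1 + k * t)) := by ring
            rw [h5]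
            linear_combination h2
          exact mul_left_cancel₀ ht h4)
      simp only [mul_zero, neg_zero, add_zero, zero_div, div_one, zero_mul, one_pow,
        one_mul] at h1
      rw [eq_div_iff (hQ0 θ).ne']
      linarith
    refine ⟨r, hr, fun t ht => ?_⟩
    obtain ⟨h1, h2⟩ := h t ht
    rw [hm1, one_mul, hk] at h2
    rw [hk] at h1
    exact ⟨h1, h2⟩

end Pool.Agent.H99.GU
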